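import Pool.Agent.W478R.Main
import Pool.Agent.W988.R3.Data

/-!
# The bound on two-coloured sets from the two-reservoir book theorem
-/

namespace W988.R3

open W478R H110R2

lemma gcok : GCOK gc (4459 / 10000) (5 / 10 ^ 15) := by
  refine ⟨by decide, by decide, by decide, by decide +kernel, ?_⟩
  have h : Real.exp ((3 : ℝ) / 25) ≤ 1.127497 := by
    have h2 := Real.exp_bound' (x := (3 : ℝ) / 25) (by norm_num) (by norm_num) (n := 6) (by norm_num)
    refine h2.trans ?_
    simp only [Finset.sum_range_succ, Finset.sum_range_zero, Nat.factorial]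
    norm_num
  show ((891719600 : ℕ) : ℝ) / ((1000000000 : ℕ) : ℝ) ≤ _
  unfold C8c gc
  simp only
  push_cast
  norm_num at h ⊢
  linarith

theorem bound :
    ∃ C : ℝ, 1 ≤ C ∧ ∀ k l : ℕ, BdAt ((Old ++ rows.map GRow.L).map (rl gc.N)) C k l := by
  obtain ⟨C0, -, h0⟩ := old_bd
  refine cert_bound3 tbookThm Pool.Agent.W460.RS.cert ?_ gcok Old
    rows C0 h0 ?_ ?_ rows_ok
  · show ((400000000 : ℕ) : ℝ) / ((1000000000 : ℕ) : ℝ) = 2 / 5
    norm_num
  · unfold Old
    decide +kernel
  · unfold rows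
    simp

theorem mem_last : ((573071878, 582717621) : ℕ × ℕ) ∈ Old ++ rows.map GRow.L := by
  decide +kernel

end W988.R3
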